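import Pool.Agent.H.MP_61cfb3_pr.A

set_option autoImplicit false

namespace Pool.Agent.Results.MP_75ee99_lc.No

open Set Filter Pool.Agent.H.MP_61cfb3_pr

/-- the time at which the searcher is at the turning point `y i` -/
def T (y : ℕ → ℝ) (i : ℕ) : ℝ := ∑ k ∈ Finset.range i, |y (k + 1) - y k|

/-- `y` is the sequence of turning points of a trajectory -/
def Traj (y : ℕ → ℝ) : Prop := y 0 = 0 ∧ y 1 ≠ 0 ∧
  (∀ i, (y (i + 2) - y (i + 1)) * (y (i + 1) - y i) < 0) ∧ Tendsto (T y) atTop atTop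

/-- cyclic and monotone -/
def CM (y : ℕ → ℝ) : Prop := ∃ (σ : ℝ) (x : ℕ → ℝ), (σ = 1 ∨ σ = -1) ∧ (∀ i, 0 < x i) ∧
  (∀ i, x i < x (i + 2)) ∧ ∀ i, y (i + 1) = σ * (-1) ^ i * x i

/-- the times at which the searcher is at `h` -/
def Pass (y : ℕ → ℝ) (h : ℝ) : Set ℝ := {u | ∃ i, h ∈ uIcc (y i) (y (i + 1)) ∧ u = T y i + |h - y i|}

/-- expected detection time; infinite if there are only finitely many passes -/
noncomputable def ET (p : ℝ) (y : ℕ → ℝ) (h : ℝ) : ENNReal :=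
  ⨅ (t : ℕ → ℝ) (_ : StrictMono t ∧ range t = Pass y h), ∑' j, ENNReal.ofReal ((1 - p) ^ j * p * t j)

/-- competitive ratio -/
noncomputable def CR (p : ℝ) (y : ℕ → ℝ) : ENNReal :=
  ⨆ (h : ℝ) (_ : 1 ≤ |h|), ENNReal.ofReal p * ET p y h / ENNReal.ofReal |h|

variable {p : ℝ} {y : ℕ → ℝ}

theorem up (hp0 : 0 < p) (hp1 : p < 1) (hy : Traj y) {H E : ℝ} (h : H ≠ 0) {u : ℕ → ℝ} (h1 : StrictMono u)
    (h2 : ∀ i, u i ∈ Pass y H) (h3 : HasSum (fun k => (1 - p) ^ k * p * u k) E) :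
    ET p y H ≤ ENNReal.ofReal E := by
  have a : ∀ i, |y i| ≤ T y i := fun i => by
    have := Finset.abs_sum_le_sum_abs (fun k => y (k + 1) - y k) (Finset.range i)
    rwa [Finset.sum_range_sub, hy.1, sub_zero] at this
  have b : ∀ x ∈ Pass y H, 0 < x := fun x ⟨i, _, e⟩ => by
    linarith [a i, abs_pos.2 h, abs_sub_abs_le_abs_sub H (y i)]
  obtain ⟨t, t1, t2, t3⟩ := enum _ b (fun R => (Finite.image (fun i => T y i + |H - y i|)
    (Nat.cofinite_eq_atTop ▸ hy.2.2.2.eventually_gt_atTop R :)).subset fun x ⟨⟨i, _, e⟩, k⟩ =>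
      ⟨i, fun f : R < T y i => by linarith [abs_nonneg (H - y i), mem_Iic.1 k], e.symm⟩) u h1 h2
  have q : 0 < 1 - p := by linarith
  refine (iInf₂_le t ⟨t1, t2⟩).trans ?_
  rw [← h3.tsum_eq, ENNReal.ofReal_tsum_of_nonneg (fun i => by have := b _ (h2 i); positivity) h3.summable]
  exact ENNReal.tsum_le_tsum fun j => ENNReal.ofReal_le_ofReal (by gcongr; exact t3 j)

theorem low (hp0 : 0 < p) (hp1 : p < 1) {H E : ℝ} {τ : ℕ → ℝ} (h1 : Monotone τ) (h0 : 0 ≤ τ 0) (hE : 0 ≤ E)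
    (h2 : Pass y H ⊆ range τ) (h3 : ET p y H ≤ ENNReal.ofReal E) :
    Summable (fun k => (1 - p) ^ k * p * τ k) ∧ ∑' k, (1 - p) ^ k * p * τ k ≤ E := by
  have q : 0 < 1 - p := by linarith
  have a : ∀ k, 0 ≤ (1 - p) ^ k * p * τ k := fun k => by have := h0.trans (h1 k.zero_le); positivity
  have b : ∀ n, ∑ k ∈ Finset.range n, (1 - p) ^ k * p * τ k ≤ E := fun n => by
    rw [← ENNReal.ofReal_le_ofReal_iff hE, ENNReal.ofReal_sum_of_nonneg fun k _ => a k]
    refine le_trans (le_iInf₂ fun t ⟨t1, t2⟩ => (ENNReal.sum_le_tsum _).trans (ENNReal.tsum_le_tsum fun j =>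
      ENNReal.ofReal_le_ofReal ?_)) h3
    choose φ e using fun j => h2 (t2 ▸ mem_range_self j)
    have : StrictMono φ := fun i j k => lt_of_not_ge fun f => (t1 k).not_ge (e i ▸ e j ▸ h1 f)
    gcongr
    exact e j ▸ h1 this.le_apply
  exact ⟨summable_of_sum_range_le a b, Real.tsum_le_of_sum_range_le a b⟩

theorem cross {s d A B : ℝ} (hs : s = 1 ∨ s = -1) (hd : 0 < d) (hA : 0 ≤ A) (hB : 0 ≤ B) :
    (s * d ∈ uIcc (s * A) (-s * B) → d ≤ A ∧ |s * d - s * A| = A - d) ∧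
      (s * d ∈ uIcc (-s * A) (s * B) → d ≤ B ∧ |s * d - -s * A| = A + d) := by
  rcases hs with rfl | rfl <;> simp only [mem_uIcc] <;> grind

theorem lower (hp0 : 0 < p) (hp1 : p < 1) (hy : Traj y) (h : CM y) :
    ENNReal.ofReal (p * (p / (2 - p) + 8 / p)) ≤ CR p y := by
  obtain ⟨σ, x, hσ, x0, x1, hx⟩ := h
  obtain ⟨X, X0, X1⟩ : ∃ X : ℕ → ℝ, X 0 = 0 ∧ ∀ i, X (i + 1) = x i :=
    ⟨fun i => Nat.casesOn i 0 x, rfl, fun _ => rfl⟩
  have a0 : ∀ i, 0 ≤ X i := fun i => by cases i <;> simp [X0, X1, (x0 _).le]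
  have a1 : ∀ i, X i < X (i + 2) := fun i => by cases i <;> simp [X0, X1, x0, x1]
  have a2 : ∀ i j, i ≤ j → Even (i + j) → X i ≤ X j := fun i j h e => by
    obtain ⟨k, rfl⟩ : ∃ k, j = i + 2 * k := ⟨(j - i) / 2, by obtain ⟨_, e⟩ := e; omega⟩
    exact monotone_nat_of_le_succ (f := fun k => X (i + 2 * k)) (fun k => (a1 _).le) k.zero_le
  have s1 : ∀ n, σ * (-1) ^ n = 1 ∨ σ * (-1) ^ n = -1 := fun n => by
    rcases hσ with rfl | rfl <;> rcases neg_one_pow_eq_or ℝ n with e | e <;> simp [e]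
  have a3 : ∀ n i, (Even (n + i) → y i = σ * (-1) ^ (n + 1) * X i) ∧
      (Odd (n + i) → y i = -(σ * (-1) ^ (n + 1)) * X i) := fun n i => by
    rcases i with _ | i
    · simp [hy.1, X0]
    rw [hx, X1]
    rcases Nat.even_or_odd n with a | a <;> rcases Nat.even_or_odd i with b | b <;>
      simp [a, b, pow_succ, a.neg_one_pow, b.neg_one_pow, parity_simps, ← Nat.not_even_iff_odd] <;>
      simp_all [← Nat.not_even_iff_odd]
  obtain ⟨S, S0, S1⟩ : ∃ S : ℕ → ℝ, S 0 = 0 ∧ ∀ i, S (i + 1) = S i + X (i + 1) :=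
    ⟨fun i => ∑ k ∈ Finset.range i, X (k + 1), by simp, fun i => Finset.sum_range_succ _ _⟩
  have a4 : ∀ i, T y i = 2 * S i - X i := fun i => by
    induction i with
    | zero => simp [T, S0, X0]
    | succ i ih =>
      have := a0 i
      have := a0 (i + 1)
      rw [T, Finset.sum_range_succ, ← T, ih, S1, (a3 i i).1 ⟨i, rfl⟩, (a3 i (i + 1)).2 ⟨i, by ring⟩]
      rcases s1 (i + 1) with e | e <;> rw [e] <;> grind
  have a5 : ∀ n d u, 0 < d → u ∈ Pass y (σ * (-1) ^ (n + 1) * d) → ∃ i, Even (n + i) ∧ d ≤ X i ∧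
      u = 2 * S i - d ∨ Even (n + (i + 1)) ∧ d ≤ X (i + 1) ∧ u = 2 * S i + d := fun n d u hd ⟨i, b, e⟩ => by
    have := cross (s1 (n + 1)) hd (a0 i) (a0 (i + 1))
    rcases Nat.even_or_odd (n + i) with k | k
    · rw [(a3 n i).1 k, (a3 n (i + 1)).2 k.add_one] at *
      exact ⟨i, .inl ⟨k, (this.1 b).1, by rw [e, (this.1 b).2, a4]; ring⟩⟩
    · rw [(a3 n i).2 k, (a3 n (i + 1)).1 k.add_one] at *
      exact ⟨i, .inr ⟨k.add_one, (this.2 b).1, by rw [e, (this.2 b).2, a4]; ring⟩⟩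
  refine le_of_not_gt fun k => ?_
  obtain ⟨c, c0, c1, c2⟩ := ENNReal.lt_iff_exists_real_btwn.1 k
  rw [ENNReal.ofReal_lt_ofReal_iff_of_nonneg c0] at c2
  have b0 : ∀ n d, 1 ≤ d → ET p y (σ * (-1) ^ (n + 1) * d) ≤ ENNReal.ofReal (c * d / p) := fun n d hd => by
    have e : |σ * (-1) ^ (n + 1) * d| = d := by rcases s1 (n + 1) with e | e <;> simp [e] <;> linarith
    have := ((le_iSup₂ (f := fun h (_ : 1 ≤ |h|) => ENNReal.ofReal p * ET p y h / ENNReal.ofReal |h|) _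
      (hd.trans e.ge)).trans c1.le)
    rw [e, ENNReal.div_le_iff (by simp; linarith) (by simp), ← ENNReal.ofReal_mul c0] at this
    rwa [ENNReal.ofReal_div_of_pos hp0, ENNReal.le_div_iff_mul_le (by simp [hp0]) (by simp), mul_comm]
  have b1 : ∀ n, ∃ i, Even (n + i) ∧ 1 ≤ X i := fun n => by
    obtain ⟨t, ht⟩ := iInf_lt_top.1 ((b0 n 1 le_rfl).trans_lt ENNReal.ofReal_lt_top)
    obtain ⟨⟨-, ht⟩, -⟩ := iInf_lt_top.1 ht
    obtain ⟨i, k | k⟩ := a5 n 1 _ one_pos (ht ▸ mem_range_self 0)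
    exacts [⟨_, k.1, k.2.1⟩, ⟨_, k.1, k.2.1⟩]
  obtain ⟨N, b1⟩ : ∃ N, ∀ n ≥ N, 1 ≤ X n := by
    obtain ⟨i, ⟨_, a⟩, b⟩ := b1 0
    obtain ⟨j, ⟨_, e⟩, f⟩ := b1 1
    exact ⟨i + j, fun n h => (Nat.even_or_odd n).elim (fun ⟨k, g⟩ => b.trans (a2 _ _ (by omega)
      (Nat.even_iff.2 (by omega)))) fun ⟨k, g⟩ => f.trans (a2 _ _ (by omega) (Nat.even_iff.2 (by omega)))⟩
  have m : Monotone S := monotone_nat_of_le_succ fun i => by linarith [S1 i, a0 (i + 1)]
  have q : 0 < 1 - p := by linarith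
  have b2 : ∀ n ≥ N, ∀ d, X n < d → d ≤ X (n + 2) → Summable (fun j => (1 - p) ^ j * S (n + 1 + j)) ∧
      2 * p * ∑' j, (1 - p) ^ j * S (n + 1 + j) + p * d / (2 - p) ≤ c * d / p := fun n hn d h1 h2 => by
    have d1 := (b1 n hn).trans h1.le
    obtain ⟨k1, k2⟩ := low hp0 hp1 (τ := fun j => 2 * S (n + 1 + j) + (-1) ^ j * d)
      (monotone_nat_of_le_succ fun j => by
        rw [← add_assoc, S1, pow_succ]
        rcases Nat.even_or_odd j with e | e <;> rw [e.neg_one_pow]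
        · linarith [a2 (n + 2) (n + 1 + j + 1) (by omega) (by obtain ⟨_, e⟩ := e; exact Nat.even_iff.2 (by omega))]
        · linarith [a0 (n + 1 + j + 1)]) (by simp; linarith [m (n + 1).zero_le]) (by positivity)
      (fun u h => by
        obtain ⟨i, ⟨e, f, g⟩ | ⟨e, f, g⟩⟩ := a5 n d u (by linarith) h
        · have : n < i := lt_of_not_ge fun k => by linarith [a2 i n k (add_comm n i ▸ e)]
          rw [Nat.even_iff] at e
          refine ⟨i - n - 1, ?_⟩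
          simp only [show n + 1 + (i - n - 1) = i by omega, (Nat.odd_iff.2 (by omega) : Odd (i - n - 1)).neg_one_pow]
          linarith
        · have : n < i + 1 := lt_of_not_ge fun k => by linarith [a2 _ n k (add_comm n _ ▸ e)]
          rw [Nat.even_iff] at e
          refine ⟨i - n - 1, ?_⟩
          simp only [show n + 1 + (i - n - 1) = i by omega,
            (Nat.even_iff.2 (by omega) : Even (i - n - 1)).neg_one_pow]
          linarith) (b0 n d d1)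
    have g := (hasSum_geometric_of_abs_lt_one (r := -(1 - p))
      (by rw [abs_neg, abs_of_pos q]; linarith)).mul_left (p * d)
    have e : ∀ j, (1 - p) ^ j * S (n + 1 + j) = (2 * p)⁻¹ * ((1 - p) ^ j * p *
      (2 * S (n + 1 + j) + (-1) ^ j * d) - p * d * (-(1 - p)) ^ j) := fun j => by
        rw [neg_pow (1 - p)]; field_simp; ring
    have := (k1.hasSum.sub g).mul_left (2 * p)⁻¹
    simp only [← e] at this
    refine ⟨this.summable, ?_⟩
    rw [this.tsum_eq, mul_inv_cancel_left₀ (by positivity), show 1 - -(1 - p) = 2 - p by ring]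
    linarith [div_eq_mul_inv (p * d) (2 - p)]
  obtain ⟨A, eA⟩ : ∃ A : ℕ → ℝ, ∀ n, A n = ∑' j, (1 - p) ^ j * S (n + 1 + j) := ⟨_, fun _ => rfl⟩
  obtain ⟨C, eC⟩ : ∃ C, C = (c / p - p / (2 - p)) / (2 * p) := ⟨_, rfl⟩
  have b3 : ∀ n ≥ N, A n = S (n + 1) + (1 - p) * A (n + 1) := fun n h => by
    rw [eA, eA, (b2 n h _ (a1 n) le_rfl).1.tsum_eq_zero_add, ← tsum_mul_left]
    simp only [pow_succ, pow_zero, mul_one, add_zero, add_assoc, add_comm 1, mul_comm, mul_left_comm]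
  have b4 : ∀ n, 0 ≤ A n := fun n => eA n ▸ tsum_nonneg fun j => mul_nonneg (by positivity) (S0 ▸ m (Nat.zero_le _))
  have b5 : ∀ n, 0 < S (n + 1) := fun n => lt_of_lt_of_le (by simp [S1, S0, X1, x0]) (m (Nat.le_add_left 1 n))
  have b6 : ∀ n ≥ N, ∀ d, X n < d → d ≤ X (n + 2) → A n ≤ C * d := fun n h d h1 h2 => by
    rw [eC, div_mul_eq_mul_div, le_div_iff₀ (by positivity), eA]
    linarith [(b2 n h d h1 h2).2, mul_div_right_comm c d p, mul_div_right_comm p d (2 - p)]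
  have b7 : 0 < C := pos_of_mul_pos_left (a := C) (by
    nlinarith [b6 N le_rfl _ (a1 N) le_rfl, b3 N le_rfl, b5 N, b4 (N + 1)]) (a0 (N + 2))
  have b8 : ∀ n ≥ N, A n ≤ C * X n := fun n h => (div_le_iff₀' b7).1 (le_of_forall_gt_imp_ge_of_dense fun d k =>
    ((div_le_iff₀' b7).2 (b6 n h _ (lt_min k (a1 n)) (min_le_right _ _))).trans (min_le_left _ _))
  obtain ⟨κ, k1, k2⟩ : ∃ κ : ℝ, (∀ n, κ ≤ A (N + n + 1) / S (N + n + 1)) ∧
      ∀ r, (∀ n, r ≤ A (N + n + 1) / S (N + n + 1)) → r ≤ κ :=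
    ⟨⨅ n, _, ciInf_le ⟨0, by rintro _ ⟨n, rfl⟩; exact div_nonneg (b4 _) (b5 _).le⟩, fun r => le_ciInf⟩
  simp only [le_div_iff₀ (b5 _)] at k1 k2
  have k3 : 1 ≤ κ := k2 1 fun n => by
    nlinarith [b3 (N + n + 1) (by omega), b4 (N + n + 1 + 1), m (N + n + 1).le_succ]
  have k4 : ∀ n, C * S (N + n + 1) ≤ (C - κ) * S (N + n + 1 + 1) := fun n => by
    have := (k1 (n + 1)).trans (b8 _ (by omega))
    rw [← add_assoc] at this
    rw [S1 (N + n + 1)] at this ⊢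
    linarith
  have k5 : 0 < C - κ := pos_of_mul_pos_left ((mul_pos b7 (b5 _)).trans_le (k4 0)) (b5 _).le
  have k6 := k2 ((1 + (1 - p) * κ) * C / (C - κ)) fun n => by
    have := mul_le_mul_of_nonneg_left (k1 (n + 1)) q.le
    rw [← add_assoc] at this
    rw [div_mul_eq_mul_div, div_le_iff₀ k5, b3 _ (by omega)]
    nlinarith [mul_le_mul_of_nonneg_left (k4 n) (show 0 ≤ 1 + (1 - p) * κ by positivity)]
  rw [div_le_iff₀ k5] at k6
  have k7 : p * p * C < 4 := by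
    have : p * p * C = (c - p * (p / (2 - p))) / 2 := by rw [eC]; field_simp
    linarith [mul_div_cancel₀ 8 hp0.ne']
  nlinarith [sq_nonneg (2 * κ - p * C), mul_pos b7 (sub_pos.2 k7)]

theorem consts (hp0 : 0 < p) (hp1 : p < 1) : ∃ a b d τ X r : ℝ, r = 2 - p ∧ 1 < a ∧ 0 < b ∧ b < 1 ∧ 0 < d ∧
    0 < τ ∧ 0 < X ∧ a ^ 2 * b = 1 ∧ τ * (a - 1) = 2 + 2 * d ∧ X / (b + d) < 8 / p ∧
    p + p * τ / b + (1 - p) * (p / r + X / b) < p / r + 8 / p ∧
    ∀ h, HasSum (fun k => (1 - p) ^ k * p * w a d τ h k) (X + p / r * h) := by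
  obtain ⟨r, hr⟩ : ∃ r, r = 2 - p := ⟨_, rfl⟩
  obtain ⟨d, hd⟩ : ∃ d, d = p * (1 - p) / 16 := ⟨_, rfl⟩
  have r1 : 1 < r := by linarith
  have r2 : r < 2 := by linarith
  have q0 : 0 < 1 - p := by linarith
  have d0 : 0 < d := by rw [hd]; positivity
  obtain ⟨a, ha'⟩ : ∃ a, a = 2 / r := ⟨_, rfl⟩
  obtain ⟨b, hb'⟩ : ∃ b, b = r ^ 2 / 4 := ⟨_, rfl⟩
  obtain ⟨τ, hτ'⟩ : ∃ τ, τ = (2 + 2 * d) * r / p := ⟨_, rfl⟩
  obtain ⟨X, hX⟩ : ∃ X, X = (2 + 2 * d) * r ^ 2 / p + 2 * p * d := ⟨_, rfl⟩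
  have ha : 1 < a := by rw [ha', lt_div_iff₀ (by linarith)]; linarith
  have b0 : 0 < b := by rw [hb']; positivity
  have b1 : b < 1 := by rw [hb']; nlinarith
  have X0 : 0 < X := by rw [hX]; positivity
  have τ0 : 0 < τ := by rw [hτ']; positivity
  have hb : a ^ 2 * b = 1 := by rw [ha', hb']; field_simp; norm_num
  have hτ : τ * (a - 1) = 2 + 2 * d := by
    rw [hτ', ha']; field_simp; rw [hr]; ring
  have hq' : 1 - (1 - p) * a = p / r := by rw [ha']; field_simp; rw [hr]; ring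
  have hq : (1 - p) * a < 1 := by linarith [div_pos hp0 (one_pos.trans r1)]
  have cA : X / (b + d) < 8 / p := by
    rw [div_lt_div_iff₀ (by linarith) hp0, hX, hb']
    field_simp
    have : p ^ 2 + r ^ 2 < 4 := by rw [hr]; nlinarith
    nlinarith
  have cB : p + p * τ / b + (1 - p) * (p / r + X / b) < p / r + 8 / p := by
    have e1 : p * τ / b = 8 / r + d * (8 / r) := by rw [hτ', hb']; field_simp; ring
    have e2 : X / b = 8 / p + d * (8 / p) + d * (8 * p / r ^ 2) := by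
      rw [hX, hb']; field_simp; ring
    have e3 : p / r + 8 / p - (p + 8 / r + (1 - p) * (p / r + 8 / p)) =
        2 * (1 - p) * (4 - p) / r := by field_simp; rw [hr]; ring
    have e4 : 3 * (1 - p) ≤ 2 * (1 - p) * (4 - p) / r := by
      rw [le_div_iff₀ (by linarith)]; nlinarith
    have e5 : 8 / r ≤ 8 := div_le_self (by norm_num) r1.le
    have e6 : 8 * p / r ^ 2 ≤ 8 := by rw [div_le_iff₀ (by positivity)]; nlinarith
    have e7 : d * (8 / p) = (1 - p) / 2 := by rw [hd]; field_simp; ring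
    have e8 : d ≤ (1 - p) / 16 := by rw [hd]; nlinarith
    have e9 : d * (8 / r) ≤ d * 8 := mul_le_mul_of_nonneg_left e5 d0.le
    have e10 : d * (8 * p / r ^ 2) ≤ d * 8 := mul_le_mul_of_nonneg_left e6 d0.le
    have e11 : (1 - p) * (d * (8 / p) + d * (8 * p / r ^ 2)) ≤
        1 * (d * (8 / p) + d * (8 * p / r ^ 2)) :=
      mul_le_mul_of_nonneg_right (by linarith) (by positivity)
    rw [e1, e2]
    nlinarith
  refine ⟨a, b, d, τ, X, r, hr, ha, b0, b1, d0, τ0, X0, hb, hτ, cA, cB, fun h => ?_⟩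
  have e : X + p / r * h = p * τ * (1 - (1 - p) * a)⁻¹ + p * h * (1 - -(1 - p))⁻¹ + p * (2 * d) := by
    rw [hq', hX, hτ', show 1 - -(1 - p) = r by linarith]
    field_simp
    ring
  exact e ▸ w_sum ha hp0 hp1 hq

theorem result (p : ℝ) (hp0 : 0 < p) (hp1 : p < 1) :
    ∃ y, Traj y ∧ CR p y < ⨅ (z : ℕ → ℝ) (_ : Traj z ∧ CM z), CR p z := by
  obtain ⟨a, b, d, τ, X, r, hr, ha, b0, b1, d0, τ0, X0, hb, hτ, cA, cB, ws⟩ := consts hp0 hp1
  have q0 : 0 < 1 - p := by linarith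
  have r0 : 0 < r := by linarith
  obtain ⟨y, y0, y1, y2, y3⟩ : ∃ y : ℕ → ℝ, y 0 = 0 ∧ (∀ n, y (3 * n + 1) = (-a) ^ n * (b + d)) ∧
      (∀ n, y (3 * n + 2) = (-a) ^ n * b) ∧ ∀ n, y (3 * n + 3) = (-a) ^ n * 1 :=
    ⟨fun i => if i = 0 then 0 else (-a) ^ ((i - 1) / 3) * if i % 3 = 1 then b + d else if i % 3 = 2 then b else 1,
      rfl, fun n => by simp, fun n => by simp [(by omega : (3 * n + 1) / 3 = n)],
      fun n => by simp [(by omega : (3 * n + 2) / 3 = n)]⟩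
  have a0 : 0 < a := by linarith
  have ab : ∀ (n : ℕ) x, |(-a) ^ n * x| = a ^ n * |x| := fun n x => by simp [abs_mul, abs_of_pos a0]
  have y4 : ∀ n, y (3 * n + 3 + 1) = (-a) ^ n * (-a * (b + d)) := fun n => by
    rw [← mul_assoc, ← pow_succ, ← y1]; rfl
  have n0 : 0 < a * (b + d) := by positivity
  have t2 : ∀ n, T y (3 * n + 2) = T y (3 * n + 1) + a ^ n * d := fun n => by
    rw [T, Finset.sum_range_succ, ← T, y2, y1, ← mul_sub, ab, abs_of_neg (by linarith)]; ring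
  have t3 : ∀ n, T y (3 * n + 3) = T y (3 * n + 2) + a ^ n * (1 - b) := fun n => by
    rw [T, Finset.sum_range_succ, ← T, y3, y2, ← mul_sub, ab, abs_of_pos (by linarith)]
  have t1 : ∀ n, T y (3 * n + 1) = a ^ n * (τ + b + d) - τ := fun n => by
    induction n with
    | zero => simp [T, y0, show y 1 = _ from y1 0, abs_of_pos (add_pos b0 d0), add_assoc]
    | succ n ih =>
      rw [T, Finset.sum_range_succ, ← T, mul_add, mul_one, t3, t2, ih, y4, y3, ← mul_sub, ab,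
        abs_of_neg (by linarith), pow_succ]
      linear_combination (-a ^ n) * hτ
  have hy : Traj y := by
    refine ⟨y0, by simpa using (y1 0).trans_ne (by positivity), fun i => ?_, tendsto_atTop_atTop_of_monotone
      (monotone_nat_of_le_succ fun i => by rw [T, T, Finset.sum_range_succ]; simp) fun R => ?_⟩
    · have e : ∀ (n : ℕ) x z w, (x - z) * (z - w) < 0 →
          ((-a) ^ n * x - (-a) ^ n * z) * ((-a) ^ n * z - (-a) ^ n * w) < 0 := fun n x z w h => by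
        nlinarith [mul_self_pos.2 (pow_ne_zero n (neg_ne_zero.2 a0.ne'))]
      rcases i with _ | i
      · simp [y0, show y 1 = _ from y1 0, show y 2 = _ from y2 0, d0, add_pos b0 d0]
      obtain ⟨n, rfl | rfl | rfl⟩ : ∃ n, i = 3 * n ∨ i = 3 * n + 1 ∨ i = 3 * n + 2 := ⟨i / 3, by omega⟩
      · rw [y1, y2, y3]; exact e _ _ _ _ (by nlinarith)
      · rw [y2, y3, y4]; exact e _ _ _ _ (by nlinarith)
      · rw [y3, y4, show 3 * n + 2 + 1 + 2 = 3 * (n + 1) + 2 by ring, y2, pow_succ, mul_assoc]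
        exact e _ _ _ _ (by nlinarith [mul_pos a0 d0])
    · obtain ⟨n, hn⟩ := pow_unbounded_of_one_lt ((R + τ) / (τ + b + d)) ha
      rw [div_lt_iff₀ (by positivity)] at hn
      exact ⟨3 * n + 1, by rw [t1]; linarith⟩
  have ps : ∀ n i α β g u, y i = (-a) ^ n * α → y (i + 1) = (-a) ^ n * β → g ∈ uIcc α β →
      u = T y i + a ^ n * |g - α| → u ∈ Pass y ((-a) ^ n * g) := fun n i α β g u h1 h2 h3 h4 =>
    ⟨i, by rw [h1, h2, ← image_const_mul_uIcc]; exact mem_image_of_mem _ h3, by rw [h1, ← mul_sub, ab, h4]⟩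
  have p3 : ∀ n g, -a * (b + d) ≤ g → g ≤ 1 → a ^ (n + 1) * τ - a ^ n * g - τ ∈ Pass y ((-a) ^ n * g) :=
    fun n g h1 h2 => ps n _ _ _ _ _ (y3 n) (y4 n) (mem_uIcc_of_ge h1 h2) (by
      rw [t3, t2, t1, abs_of_nonpos (by linarith)]; linear_combination a ^ n * hτ)
  refine ⟨y, hy, lt_of_le_of_lt (iSup₂_le fun H hH => ?_) (((ENNReal.ofReal_lt_ofReal_iff (by positivity)).2
    (mul_lt_mul_of_pos_left (max_lt (show p / r + X / (b + d) < _ by linarith) cB) hp0)).trans_le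
      (le_iInf₂ fun z h => hr ▸ lower hp0 hp1 h.1 h.2))⟩
  have hH0 : H ≠ 0 := abs_pos.1 (by linarith)
  obtain ⟨m, h, h0, h1, hH1, hH2⟩ := decH ha hH0
  have ha2 : 1 < a ^ 2 := by nlinarith
  have hbh : b ≤ h := le_of_mul_le_mul_left (hb.trans_le h0) (by positivity)
  have hh : 0 < h := by linarith
  obtain ⟨m, rfl⟩ : ∃ k : ℕ, m = (k + 1 : ℕ) := ⟨(m - 1).toNat, by
    have : 0 < m := (one_lt_zpow_iff_right₀ ha).1 ((hH.trans_eq hH2).trans_lt
      (mul_lt_of_lt_one_right (zpow_pos a0 m) h1))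
    omega⟩
  rw [zpow_natCast] at hH1 hH2
  have hm : 0 < a ^ (m + 1) := by positivity
  replace ws := ws h
  have fin : ∀ (u : ℕ → ℝ) (E : ℝ), StrictMono u → (∀ i, a ^ (m + 1) * u i - τ ∈ Pass y H) →
      HasSum (fun k => (1 - p) ^ k * p * u k) E → ∀ c, E ≤ c * h →
      ENNReal.ofReal p * ET p y H / ENNReal.ofReal |H| ≤ ENNReal.ofReal (p * c) := fun u E u1 u2 u3 c hc => by
    have g := (hasSum_geometric_of_lt_one q0.le (by linarith)).mul_right (p * τ)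
    have := up hp0 hp1 hy hH0 ((u1.const_mul hm).add_const (-τ)) u2
      (((u3.mul_left (a ^ (m + 1))).sub g).congr_fun fun k => by ring)
    refine ENNReal.div_le_of_le_mul ?_
    rw [ENNReal.ofReal_mul hp0.le, mul_assoc, ← ENNReal.ofReal_mul' (abs_nonneg _)]
    gcongr
    refine this.trans (ENNReal.ofReal_le_ofReal ?_)
    rw [hH2, sub_sub_cancel]
    nlinarith [mul_le_mul_of_nonneg_left hc hm.le, (by positivity : 0 < p⁻¹ * (p * τ))]
  have p4 : ∀ j, h ≤ (a ^ 2) ^ j * (b + d) → a ^ (m + 1) * (τ * a ^ (2 * j) + h) - τ ∈ Pass y H := fun j k => by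
    have e : (0 : ℝ) < (a ^ 2) ^ j := by positivity
    have := p3 (m + 2 * j) (-a * (h / (a ^ 2) ^ j)) (by rw [neg_mul, neg_mul, neg_le_neg_iff]; gcongr; rwa [div_le_iff₀' e])
      (by nlinarith [div_pos hh e])
    rwa [show (-a) ^ (m + 2 * j) * (-a * (h / (a ^ 2) ^ j)) = H by rw [hH1, pow_add, pow_mul, neg_sq, pow_succ (-a) m]; field_simp,
      show a ^ (m + 2 * j + 1) * τ - a ^ (m + 2 * j) * (-a * (h / (a ^ 2) ^ j)) =
        a ^ (m + 1) * (τ * a ^ (2 * j) + h) by simp only [pow_add, pow_mul]; field_simp; ring] at this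
  have wS : ∀ i, a ^ (m + 1) * w a d τ h i - τ ∈ Pass y H := fun i => by
    obtain ⟨j, rfl | rfl⟩ := Nat.even_or_odd' i
    · rcases j with _ | j
      · exact hH1 ▸ ps _ _ _ _ _ _ (y2 _) (y3 _) (mem_uIcc_of_le hbh h1.le) (by
          rw [t2, t1, abs_of_nonneg (by linarith)]; simp [w]; ring)
      · simpa [w] using p4 (j + 1) (by
          rw [pow_succ, mul_assoc]; nlinarith [one_le_pow₀ (n := j) ha2.le, mul_pos (one_pos.trans ha2) d0])
    · have e : (1 : ℝ) ≤ (a ^ 2) ^ j := one_le_pow₀ ha2.le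
      have := p3 (m + 1 + 2 * j) (h / (a ^ 2) ^ j) (by linarith [div_pos hh (one_pos.trans_le e)])
        ((div_le_self hh.le e).trans h1.le)
      rwa [show (-a) ^ (m + 1 + 2 * j) * (h / (a ^ 2) ^ j) = H by rw [hH1, pow_add, pow_mul, neg_sq]; field_simp,
        show a ^ (m + 1 + 2 * j + 1) * τ - a ^ (m + 1 + 2 * j) * (h / (a ^ 2) ^ j) =
          a ^ (m + 1) * w a d τ h (2 * j + 1) by simp [w, pow_add, pow_mul]; field_simp; ring] at this
  have wm := w_mono ha d0 hτ hh h1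
  by_cases hc : b + d ≤ h
  · refine fin _ _ wm wS ws _ (le_trans ?_ (mul_le_mul_of_nonneg_right (le_max_left _ _) hh.le))
    have : X ≤ X / (b + d) * h := by
      rw [div_mul_eq_mul_div, le_div_iff₀ (by linarith)]
      exact mul_le_mul_of_nonneg_left hc X0.le
    linarith
  · let u : ℕ → ℝ := fun k => Nat.casesOn k (τ + h) (w a d τ h)
    refine fin u (p * (τ + h) + (1 - p) * (X + p / r * h)) (strictMono_nat_of_lt_succ fun k => ?_) (fun k => ?_) ?_ _
      (le_trans ?_ (mul_le_mul_of_nonneg_right (le_max_right _ _) hh.le))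
    · cases k
      exacts [by simp [u, w, d0], wm (Nat.lt_succ_self _)]
    · cases k
      exacts [by simpa [u] using p4 0 (by simpa using (not_le.1 hc).le), wS _]
    · rw [← hasSum_nat_add_iff' 1]
      simpa [u] using (ws.mul_left (1 - p)).congr_fun fun n => by simp only [pow_succ]; ring
    · have f1 : X ≤ X / b * h := by
        rw [div_mul_eq_mul_div, le_div_iff₀ b0]
        exact mul_le_mul_of_nonneg_left hbh X0.le
      have f2 : p * τ ≤ p * τ / b * h := by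
        rw [div_mul_eq_mul_div, le_div_iff₀ b0]
        exact mul_le_mul_of_nonneg_left hbh (by positivity)
      nlinarith [mul_le_mul_of_nonneg_left f1 q0.le]

end Pool.Agent.Results.MP_75ee99_lc.No
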